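import Pool.Agent.Lib.MP_d26cd8_an.helper43.Irr

/-!
The algebraic half of the bound `d_min(P) ≤ |P| - 1` for nilsystems.

Setting behind the theorem.  Let `X = G/Γ` be a connected nilmanifold, `T` the translation by
`τ`, `T` ergodic, `G` generated by its identity component `G°` and `τ`.  Then `τ = a γ` with
`a ∈ G°`, `γ ∈ Γ`; let `L` be the rational Lie algebra of `G°` (spanned by the logarithms of
`Γ ∩ G°`), `δ` the logarithm of the action of `γ` on `L` (a nilpotent derivation of `L`), and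
write `τ = exp (δ + e)` with `e` in the real Lie algebra `ℝ ⊗ L`.  The Lie algebra of
`G_{k+1} ∩ G°` is `lower δ k`, and ergodicity of `T` says that `φ(e)` is irrational for every
nonzero rational functional `φ` of `L` that vanishes on `lower δ 1`.
For `g ∈ G°` the orbit of the diagonal point `(g, …, g)` is
`(τ^{p_k(n)} g Γ)_k = (σ(p_k(n)) · γ^{p_k(n)} g γ^{-p_k(n)} Γ)_k`, where the path
`σ(t) = exp (t (δ + e)) exp (-t δ)` has logarithmic derivative `exp (t δ) e`.
-/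

set_option autoImplicit false

open Polynomial TensorProduct

namespace Pool.Agent.Results.MP_d26cd8_an.OrbitAlgebra

variable {L : Type*} [LieRing L] [LieAlgebra ℚ L]

/-- The lower central series of `G = ⟨exp L, exp δ⟩` inside `L`: `lower δ 0 = L`, and
`lower δ (k+1)` is spanned by the brackets `⁅u, v⁆` with `u ∈ L`, `v ∈ lower δ k` and the
elements `δ v` with `v ∈ lower δ k`.  So `lower δ k` is the Lie algebra of `G_{k+1}`. -/
def lower (δ : LieDerivation ℚ L L) : ℕ → Submodule ℚ L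
  | 0 => ⊤
  | k + 1 => Submodule.span ℚ
      ({x | ∃ u : L, ∃ v ∈ lower δ k, x = ⁅u, v⁆} ∪ {x | ∃ v ∈ lower δ k, x = δ v})

/-- `exp (c δ)`, the sum of the first `s` terms of the exponential series (in the theorem
`δ ^ s = 0`, so that this is the whole series). -/
noncomputable def expo (δ : LieDerivation ℚ L L) (s : ℕ) (c : ℚ) : L →ₗ[ℚ] L :=
  ∑ m ∈ Finset.range s, (c ^ m / (m.factorial : ℚ)) • ((δ : L →ₗ[ℚ] L) : Module.End ℚ L) ^ m

/-- The velocity at time `n` of the path `t ↦ (σ(p_k(t)))_k`, as a linear function of `e`: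
`e ↦ (p_k'(n) • exp (p_k(n) δ) e)_k`. -/
noncomputable def velocity {N : ℕ} (p : Fin N → ℤ[X]) (δ : LieDerivation ℚ L L) (s n : ℕ) :
    L →ₗ[ℚ] (Fin N → L) :=
  LinearMap.pi fun k => (((derivative (p k)).eval (n : ℤ) : ℤ) : ℚ) •
    expo δ s (((p k).eval (n : ℤ) : ℤ) : ℚ)

/-- The value in `ℝ` of the rational functional `φ` at the vector `e` of `ℝ ⊗ L`. -/
noncomputable def value (φ : L →ₗ[ℚ] ℚ) (e : ℝ ⊗[ℚ] L) : ℝ :=
  TensorProduct.rid ℚ ℝ (LinearMap.lTensor ℝ φ e)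

lemma lower_eq (δ : LieDerivation ℚ L L) (k : ℕ) :
    lower δ k = Pool.Agent.MPd26.H43.lcsD δ k := by
  induction k with
  | zero => rfl
  | succ k ih => rw [lower, Pool.Agent.MPd26.H43.lcsD, ih]

/-- Let `p 1, …, p ℓ` be integer polynomials, nonconstant and with nonconstant differences, and
add `p 0 = 0`.  Let `H` be a rational Lie subalgebra of `L ^ (ℓ + 1)` that contains the vectors
`(exp (p_k(n) δ) w)_k`, `w ∈ L`, `n ∈ ℕ`, and whose real span contains the velocities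
`(p_k'(n) exp (p_k(n) δ) e)_k`.  Then `H` contains every copy of `lower δ (ℓ - 1)`, the Lie
algebra of `G_ℓ`, in `L ^ (ℓ + 1)`. -/
theorem result (ℓ : ℕ) (p : Fin ℓ → ℤ[X]) (hp : ∀ i, 0 < (p i).natDegree)
    (hpp : ∀ i j, i ≠ j → 0 < (p i - p j).natDegree)
    (δ : LieDerivation ℚ L L) (s : ℕ) (hs : lower δ s = ⊥)
    (e : ℝ ⊗[ℚ] L)
    (he : ∀ φ : L →ₗ[ℚ] ℚ, φ ≠ 0 → (∀ v ∈ lower δ 1, φ v = 0) → Irrational (value φ e))
    (H : Submodule ℚ (Fin (ℓ + 1) → L))
    (hLie : ∀ f ∈ H, ∀ g ∈ H, (fun k => ⁅f k, g k⁆) ∈ H)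
    (hDiag : ∀ (w : L) (n : ℕ),
      (fun k => expo δ s ((((Fin.cons 0 p : Fin (ℓ + 1) → ℤ[X]) k).eval (n : ℤ) : ℤ) : ℚ) w) ∈ H)
    (hVel : ∀ n : ℕ,
      (velocity (Fin.cons 0 p : Fin (ℓ + 1) → ℤ[X]) δ s n).baseChange ℝ e ∈ H.baseChange ℝ) :
    ∀ (i : Fin (ℓ + 1)) (w : L), w ∈ lower δ (ℓ - 1) →
      (Pi.single i w : Fin (ℓ + 1) → L) ∈ H := by
  intro i w hw
  have hq : ∀ i j : Fin (ℓ + 1), i ≠ j →
      0 < ((Fin.cons 0 p : Fin (ℓ + 1) → ℤ[X]) i
        - (Fin.cons 0 p : Fin (ℓ + 1) → ℤ[X]) j).natDegree := by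
    intro i j hij
    induction i using Fin.cases with
    | zero =>
      induction j using Fin.cases with
      | zero => exact absurd rfl hij
      | succ j => rw [Fin.cons_zero, Fin.cons_succ, zero_sub, natDegree_neg]; exact hp j
    | succ i =>
      induction j using Fin.cases with
      | zero => rw [Fin.cons_zero, Fin.cons_succ, sub_zero]; exact hp i
      | succ j =>
        rw [Fin.cons_succ, Fin.cons_succ]
        exact hpp i j (fun h => hij (by rw [h]))
  have he' : ∀ φ : L →ₗ[ℚ] ℚ, φ ≠ 0 → (∀ v ∈ Pool.Agent.MPd26.H43.lcsD δ 1, φ v = 0) →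
      Irrational (Pool.Agent.MPd26.H43.evR φ e) := by
    intro φ h1 h2
    exact he φ h1 (by rw [lower_eq]; exact h2)
  refine Pool.Agent.MPd26.H43.irr_main (Fin.cons 0 p : Fin (ℓ + 1) → ℤ[X]) hq δ s
    (by rw [← lower_eq]; exact hs) e he' H hLie ?_ hVel i (ℓ - 1) ?_ w ?_
  · intro w n
    have := hDiag w n
    have e1 : (fun k => expo δ s ((((Fin.cons 0 p : Fin (ℓ + 1) → ℤ[X]) k).eval (n : ℤ) : ℤ) : ℚ)
        w) = (fun k => Pool.Agent.MPd26.H43.expD δ s
          ((((Fin.cons 0 p : Fin (ℓ + 1) → ℤ[X]) k).eval (n : ℤ) : ℤ) : ℚ) w) := by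
      funext k
      exact Pool.Agent.MPd26.H43.expDL_apply δ s _ w
    rw [e1] at this
    exact this
  · rw [Fintype.card_fin]; omega
  · rw [← lower_eq]; exact hw

end Pool.Agent.Results.MP_d26cd8_an.OrbitAlgebra
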